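import Pool.Agent.K9h27.PF.Top

/-!
# The conformal Assouad dimension of the limits of the critical interface is 2

Critical bond percolation (`q = 1`) on `δ ℤ²` in a rectangle `D = (-A, B) × (0, H)`, with the
counterclockwise boundary arc from `a = t + i H` to `b = 0` wired and the other one dual-wired.
`Rect.law` is the law of the exploration path from `a` to `b` (as a curve with constant speed) and
of its natural time. Weak limits exist along a subsequence of every sequence of meshes. For every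
weak limit `(f, T)`, almost surely:

* every arc is nowhere porous, at all small scales: for every `ε` there is a deterministic `K ε`
  such that for every small `r` every arc `f [s, t]` is `ε r'`-dense in some disc of radius
  `r' ∈ [r / K ε, r]`;
* hence the conformal Assouad dimension of every arc is `2`: all quasisymmetric images, in all
  metric spaces, have Assouad dimension at least `2` (whereas the quasi-Assouad dimension of the
  range is `7/4`).

Definitions: `conformalAssouadDim` (with `AssouadBound`, `assouadDim`, `QuasiSymmetric`) in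
`Pool.Agent.K9h27.PF.QS`; for the exploration path, `Pool.Agent.H984R4.NP.Model` (`Rect`, `pos`,
`clamp`, `pl`, `X`, `Rect.dm`, `Rect.curve`, `Rect.time`, `Rect.law`), `Pool.Agent.H984R4.NP.Defs`
(`Dm`, `Dm.edges`, `Dm.wir`, `Dm.cfg`, `Dm.walk`, `Dm.len`) and `Pool.Agent.H984R3.Per.Defs`
(states, `ae`, `mv`, `rt`, `nxt`, `orb`).
-/

set_option autoImplicit false

namespace Pool.Agent.Results.MP_b3e76a_pr.ConformalDimension

open H984N MeasureTheory Filter Topology
open Pool.Agent.K9h27.PF

theorem result (R : Rect) :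
    (∀ δ : ℕ → ℝ, (∀ i, 0 < δ i) → Tendsto δ atTop (𝓝 0) →
      ∃ φ : ℕ → ℕ, StrictMono φ ∧ ∃ μ : ProbabilityMeasure X,
        Tendsto (fun i => R.law (δ (φ i))) atTop (𝓝 μ)) ∧
    ∃ K : ℝ → ℝ, (∀ ε : ℝ, 0 < ε → 1 ≤ K ε) ∧
    ∀ δ : ℕ → ℝ, (∀ i, 0 < δ i) → Tendsto δ atTop (𝓝 0) → ∀ μ : ProbabilityMeasure X,
      Tendsto (fun i => R.law (δ i)) atTop (𝓝 μ) →
      ∀ᵐ p ∂(μ : Measure X), ∀ s t : unitInterval, s < t →
        (∀ ε : ℝ, 0 < ε → ∀ᶠ r : ℝ in 𝓝[>] 0, ∃ (y : ℂ) (r' : ℝ), r / K ε ≤ r' ∧ r' ≤ r ∧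
          ∀ w ∈ Metric.closedBall y r', ∃ u ∈ Set.Icc s t, dist w (p.1 u) ≤ ε * r') ∧
        conformalAssouadDim (p.1 '' Set.Icc s t) = 2 := by
  obtain ⟨h1, c, C, K, -, -, hK, h2⟩ := Pool.Agent.K9h27.PF.all_parts R
  refine ⟨h1, K, hK, fun δ hδ hlim μ hμ => ?_⟩
  filter_upwards [h2 δ hδ hlim μ hμ] with p hp
  exact hp.2.2.2

end Pool.Agent.Results.MP_b3e76a_pr.ConformalDimension
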