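import Pool.Agent.K9h27.PF.Top

/-!
# The filling scale of the limits of the critical interface

Critical bond percolation (`q = 1`) on `δ ℤ²` in a rectangle `D = (-A, B) × (0, H)`, with the
counterclockwise boundary arc from `a = t + i H` to `b = 0` wired and the other one dual-wired.
`Rect.law` is the law of the exploration path from `a` to `b` (as a curve with constant speed) and
of its natural time. Weak limits exist along a subsequence of every sequence of meshes. For every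
weak limit `(f, T)`, almost surely:

* every arc `f [s, t]` has, for every small `r`, a point `z` such that for ALL
  `σ ≤ r / √(log (1/r))` the area of the part of the `σ`-neighbourhood of the arc in the disc
  `B (z, r)` is at least `c σ ^ (1/4) r ^ (7/4) (log (1/r)) ^ (1/8)`; at `σ = r / √(log (1/r))` this
  is `c r ²`: the neighbourhood fills a positive proportion of the disc;
* the order is sharp: the area is at most `C σ ^ (1/4) r ^ (7/4) (log (1/r)) ^ (1/8)` for all discs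
  `B (z, r)` and all `σ ≤ c r / log (1/r)`, so nothing is filled at the scale `c r / log (1/r)`.

Definitions: `Pool.Agent.H984R4.NP.Model` (`Rect`, `pos`, `clamp`, `pl`, `X`, `Rect.dm`,
`Rect.curve`, `Rect.time`, `Rect.law`), `Pool.Agent.H984R4.NP.Defs` (`Dm`, `Dm.edges`, `Dm.wir`,
`Dm.cfg`, `Dm.walk`, `Dm.len`) and `Pool.Agent.H984R3.Per.Defs` (states, `ae`, `mv`, `rt`, `nxt`,
`orb`).
-/

set_option autoImplicit false

namespace Pool.Agent.Results.MP_b3e76a_pr.FillingScale

open H984N MeasureTheory Filter Topology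

theorem result (R : Rect) :
    (∀ δ : ℕ → ℝ, (∀ i, 0 < δ i) → Tendsto δ atTop (𝓝 0) →
      ∃ φ : ℕ → ℕ, StrictMono φ ∧ ∃ μ : ProbabilityMeasure X,
        Tendsto (fun i => R.law (δ (φ i))) atTop (𝓝 μ)) ∧
    ∃ c C : ℝ, 0 < c ∧ 0 < C ∧
    ∀ δ : ℕ → ℝ, (∀ i, 0 < δ i) → Tendsto δ atTop (𝓝 0) → ∀ μ : ProbabilityMeasure X,
      Tendsto (fun i => R.law (δ i)) atTop (𝓝 μ) →
      ∀ᵐ p ∂(μ : Measure X), 0 < p.2 ∧
        (∀ s t : unitInterval, s < t → ∀ᶠ r : ℝ in 𝓝[>] 0, ∃ z ∈ p.1 '' Set.Icc s t,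
          ∀ σ : ℝ, 0 < σ → σ ≤ r / Real.sqrt (Real.log (1 / r)) →
            c * σ ^ (1/4 : ℝ) * (r ^ (7/4 : ℝ) * Real.log (1 / r) ^ (1/8 : ℝ)) ≤
              (volume (Metric.thickening σ (p.1 '' Set.Icc s t) ∩
                Metric.closedBall z r)).toReal) ∧
        ∀ᶠ r : ℝ in 𝓝[>] 0, ∀ σ : ℝ, 0 < σ → σ ≤ c * r / Real.log (1 / r) → ∀ z : ℂ,
          (volume (Metric.thickening σ (Set.range p.1) ∩ Metric.closedBall z r)).toReal ≤
            C * σ ^ (1/4 : ℝ) * (r ^ (7/4 : ℝ) * Real.log (1 / r) ^ (1/8 : ℝ)) := by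
  obtain ⟨h1, c, C, K, hc, hC, -, h2⟩ := Pool.Agent.K9h27.PF.all_parts R
  refine ⟨h1, c, C, hc, hC, fun δ hδ hlim μ hμ => ?_⟩
  filter_upwards [h2 δ hδ hlim μ hμ] with p hp
  exact ⟨hp.1, hp.2.1, hp.2.2.1⟩

end Pool.Agent.Results.MP_b3e76a_pr.FillingScale
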