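import Pool.Agent.K9h80.WN.Conv
import Pool.Agent.H934R3.D74.Asm
import Pool.Agent.H934R3.SL.SL
import Pool.Agent.H985R3.TA.STA

/-!
The random cluster (FK) model with parameters `p`, `q` on `δ ℤ²` in a rectangle
`D = (-A, B) × (0, H)`, with the counterclockwise boundary arc from `a = t + i H` to `b = 0` wired
and the other one free, and the trace of its interface `γ_δ`. If `(|p - 1/2| + |q - 1|) δ^(-3/4)` is
small, then the law of the trace for the Hausdorff metric is near the one of critical bond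
percolation (`p = 1/2`, `q = 1`). So, if this quantity tends to zero, the FK interfaces have the
same weak limits as the critical percolation interface. In particular this holds at the self-dual
point `p = √q / (1 + √q)` if `|q - 1| = o(δ^(3/4))`, and then all weak limits are carried by the
sets of Hausdorff dimension `7 / 4`, the dimension of SLE₆.

Definitions: `H934E.Rect` (the domain), `Rect.verts`, `Rect.edges` (the discrete domain),
`Rect.wired`, `Rect.outer` (boundary condition), `Rect.clu`, `Rect.dclu` (the two clusters),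
`Rect.path`, `Rect.trace` (trace of the interface), `Rect.law` (its law for critical percolation)
are in `Pool.Agent.H934R2.Expl.Model`; `cls` (clusters), `kl` (their number), `free` (the edges
which are not wired), `wt` (the FK weight) are in `Pool.Agent.K9h80.WN.Clus`; `Zfk` (partition
function) and `fk` (the law of the trace under the FK measure) are in `Pool.Agent.K9h80.WN.Law`.
-/

namespace Pool.Agent.Results.MP_b3e76a_pr.NearOneWindow

open MeasureTheory TopologicalSpace Filter Topology Pool.Agent.K9h80.WN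

theorem result (R : H934E.Rect) :
    -- comparison with critical percolation, uniformly in `p`, `q`
    (∀ ε : ℝ, 0 < ε → ∃ C : ℝ, 0 < C ∧ ∃ δ0 : ℝ, 0 < δ0 ∧ ∀ (δ : ℝ) (hδ : 0 < δ), δ ≤ δ0 →
      ∀ (p q : ℝ) (hp0 : 0 < p) (hp1 : p < 1) (hq : 0 < q) (G : Set (NonemptyCompacts ℂ)),
      MeasurableSet G →
        (fk R hδ hp0 hp1 hq : Measure (NonemptyCompacts ℂ)).real G ≤
          (R.law hδ : Measure (NonemptyCompacts ℂ)).real (Metric.thickening ε G) +
            C * (|p - 1/2| + |q - 1|) * δ ^ (-(3/4 : ℝ)) ∧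
        (R.law hδ : Measure (NonemptyCompacts ℂ)).real G ≤
          (fk R hδ hp0 hp1 hq : Measure (NonemptyCompacts ℂ)).real (Metric.thickening ε G) +
            C * (|p - 1/2| + |q - 1|) * δ ^ (-(3/4 : ℝ))) ∧
    -- in the window the FK laws and the percolation laws have the same limits
    (∀ (δ p q : ℕ → ℝ) (hδ : ∀ i, 0 < δ i) (hp0 : ∀ i, 0 < p i) (hp1 : ∀ i, p i < 1)
      (hq : ∀ i, 0 < q i), Tendsto δ atTop (𝓝 0) →
      Tendsto (fun i => (|p i - 1/2| + |q i - 1|) * δ i ^ (-(3/4 : ℝ))) atTop (𝓝 0) →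
      ∀ ν : ProbabilityMeasure (NonemptyCompacts ℂ),
        Tendsto (fun i => fk R (hδ i) (hp0 i) (hp1 i) (hq i)) atTop (𝓝 ν) ↔
          Tendsto (fun i => R.law (hδ i)) atTop (𝓝 ν)) ∧
    -- the self-dual point `p = √q / (1 + √q)`: limits exist and have dimension `7/4`
    (∀ (δ q : ℕ → ℝ) (hδ : ∀ i, 0 < δ i) (hq : ∀ i, 0 < q i), Tendsto δ atTop (𝓝 0) →
      Tendsto (fun i => |q i - 1| * δ i ^ (-(3/4 : ℝ))) atTop (𝓝 0) →
      (∃ φ : ℕ → ℕ, StrictMono φ ∧ ∃ ν : ProbabilityMeasure (NonemptyCompacts ℂ),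
        Tendsto (fun i => fk R (p := Real.sqrt (q (φ i)) / (1 + Real.sqrt (q (φ i))))
          (hδ (φ i)) (sd_bound (hq (φ i))).1 (sd_bound (hq (φ i))).2.1 (hq (φ i)))
          atTop (𝓝 ν)) ∧
      ∀ ν : ProbabilityMeasure (NonemptyCompacts ℂ),
        Tendsto (fun i => fk R (p := Real.sqrt (q i) / (1 + Real.sqrt (q i)))
          (hδ i) (sd_bound (hq i)).1 (sd_bound (hq i)).2.1 (hq i)) atTop (𝓝 ν) →
        ∀ᵐ (K : NonemptyCompacts ℂ) ∂(ν : Measure (NonemptyCompacts ℂ)),
          dimH (K : Set ℂ) = 7 / 4) := by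
  refine ⟨fun ε hε => two_sides R hε, fun δ p q hδ hp0 hp1 hq hlim hw ν =>
    fk_tendsto_iff R δ p q hδ hp0 hp1 hq hlim hw ν, ?_⟩
  intro δ q hδ hq hlim hw
  have hw' : Tendsto (fun i => (|Real.sqrt (q i) / (1 + Real.sqrt (q i)) - 1/2| + |q i - 1|) *
      δ i ^ (-(3/4 : ℝ))) atTop (𝓝 0) := by
    refine squeeze_zero (fun i => ?_) (fun i => ?_) (g := fun i => 2 * (|q i - 1| *
      δ i ^ (-(3/4 : ℝ)))) ?_
    · have := Real.rpow_pos_of_pos (hδ i) (-(3/4 : ℝ))
      positivity
    · have h1 := Real.rpow_pos_of_pos (hδ i) (-(3/4 : ℝ))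
      have h2 := (sd_bound (hq i)).2.2
      nlinarith
    · simpa using hw.const_mul 2
  constructor
  · obtain ⟨φ, hφ, ν, hν⟩ := R.exists_limit hδ hlim
    refine ⟨φ, hφ, ν, ?_⟩
    exact (fk_tendsto_iff R (fun i => δ (φ i))
      (fun i => Real.sqrt (q (φ i)) / (1 + Real.sqrt (q (φ i)))) (fun i => q (φ i))
      (fun i => hδ (φ i)) (fun i => (sd_bound (hq (φ i))).1)
      (fun i => (sd_bound (hq (φ i))).2.1) (fun i => hq (φ i))
      (hlim.comp hφ.tendsto_atTop) (hw'.comp hφ.tendsto_atTop) ν).2 hν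
  · intro ν hν
    exact H934F.dim74 H985T.st_A H934SL.st_L R δ hδ hlim ν
      ((fk_tendsto_iff R δ (fun i => Real.sqrt (q i) / (1 + Real.sqrt (q i))) q hδ
        (fun i => (sd_bound (hq i)).1) (fun i => (sd_bound (hq i)).2.1) hq hlim hw' ν).1 hν)

end Pool.Agent.Results.MP_b3e76a_pr.NearOneWindow
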