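import Pool.Agent.K9h27.TN.Top

/-!
# Thin points of the percolation interface: dimension `7/4 (1 - Θ(θ ^ (-4/3)))`

Critical bond percolation on `δ ℤ²` in a rectangle `D = (-A, B) × (0, H)`, with the counterclockwise
boundary arc from `a = t + i H` to `b = 0` wired and the other one dual-wired. The exploration path
is parametrised by its number of steps: `Rect.curve` is the piecewise linear curve on `[0, 1]` run
at constant speed, and `Rect.time` is the number of steps times `δ ^ (7/4)`; `Rect.law` is the law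
of (curve, time). Weak limits exist along a subsequence of every sequence of meshes.

Let `p = (f, T)` be a sample of a weak limit. A point `z` is `θ`-thin if for arbitrarily small `r`
the natural time which the curve spends in the disc of radius `r` around `z` is at most
`θ r ^ (7/4) (log (1/r)) ^ (-3/4)` (at typical points of the curve this is not the case: there the
lower limit has the gauge `r ^ (7/4) (log log (1/r)) ^ (-3/4)`, see the hand-in `PackingGauge` of
`MP_216314_pr`). There are universal constants `c`, `C`, `θ₀` such that in every rectangle, for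
every weak limit, almost surely, simultaneously for all `θ ≥ θ₀` and all `s < t`, the times in
`[s, t]` at which the curve is at a `θ`-thin point have Hausdorff dimension between
`1 - C θ ^ (-4/3)` and `1 - c θ ^ (-4/3)`, and the `θ`-thin points of the arc `f [s, t]` have
Hausdorff dimension between `7/4 (1 - C θ ^ (-4/3))` and `7/4 (1 - c θ ^ (-4/3))`.

Definitions: `Pool.Agent.H984R4.NP.Model` (`Rect`, `pos`, `clamp`, `pl`, `X`, `Rect.dm`,
`Rect.curve`, `Rect.time`, `Rect.law`), `Pool.Agent.H984R4.NP.Defs` (`Dm`, `Dm.edges`, `Dm.wir`,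
`Dm.cfg`, `Dm.walk`, `Dm.len`) and `Pool.Agent.H984R3.Per.Defs` (states, `ae`, `mv`, `rt`, `nxt`,
`orb`).

Plan of the proof. The upper bound: thin times are fast times (starting file `FastTimes`). The lower
bound needs pieces of the curve which are fast AND isolated from the rest of the curve (the starting
files find fast pieces, but other pieces of the curve may come near them): the trial of the new
files `Pool.Agent.K9h27.PK` produces, with probability at least `exp (-K k)`, a time interval of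
length of the order `k ^ (-3/4) w ^ (7/4)` during which the curve stays within `w` of its starting
point, while its total time near this point is at most of the same order. With `k ~ q log (1/w)`
such pieces are ubiquitous at the scale `w` up to the power `w ^ (-C q)`.
-/

set_option autoImplicit false

namespace Pool.Agent.Results.MP_b3e76a_pr.ThinPoints

open H984N MeasureTheory Filter Topology

/-- `z` is a `θ`-thin point of `p = (f, T)`: for arbitrarily small `r > 0` the time
`T |{v : dist (f v) z ≤ r}|` spent near `z` is at most `θ r ^ (7/4) (log (1/r)) ^ (-3/4)`. -/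
def Thin (θ : ℝ) (p : X) (z : ℂ) : Prop :=
  ∃ᶠ r : ℝ in 𝓝[>] 0, p.2 * (volume {v : unitInterval | dist (p.1 v) z ≤ r}).toReal ≤
    θ * (r ^ (7/4 : ℝ) / Real.log (1 / r) ^ (3/4 : ℝ))

theorem result : ∃ c C θ₀ : ℝ, 0 < c ∧ 0 < C ∧ 0 < θ₀ ∧ C / θ₀ ^ (4/3 : ℝ) < 1 ∧ ∀ R : Rect,
    (∀ δ : ℕ → ℝ, (∀ i, 0 < δ i) → Tendsto δ atTop (𝓝 0) →
      ∃ φ : ℕ → ℕ, StrictMono φ ∧ ∃ μ : ProbabilityMeasure X,
        Tendsto (fun i => R.law (δ (φ i))) atTop (𝓝 μ)) ∧
    ∀ δ : ℕ → ℝ, (∀ i, 0 < δ i) → Tendsto δ atTop (𝓝 0) → ∀ μ : ProbabilityMeasure X,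
      Tendsto (fun i => R.law (δ i)) atTop (𝓝 μ) →
      ∀ᵐ p ∂(μ : Measure X), 0 < p.2 ∧ ∀ θ : ℝ, θ₀ ≤ θ → ∀ s t : unitInterval, s < t →
        (ENNReal.ofReal (1 - C / θ ^ (4/3 : ℝ)) ≤
            dimH {u | u ∈ Set.Icc s t ∧ Thin θ p (p.1 u)} ∧
          dimH {u | u ∈ Set.Icc s t ∧ Thin θ p (p.1 u)} ≤
            ENNReal.ofReal (1 - c / θ ^ (4/3 : ℝ))) ∧
        (ENNReal.ofReal (7 / 4 * (1 - C / θ ^ (4/3 : ℝ))) ≤
            dimH {z | z ∈ p.1 '' Set.Icc s t ∧ Thin θ p z} ∧
          dimH {z | z ∈ p.1 '' Set.Icc s t ∧ Thin θ p z} ≤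
            ENNReal.ofReal (7 / 4 * (1 - c / θ ^ (4/3 : ℝ)))) := by
  obtain ⟨c, C, θ0, hc, hC, hθ0, hCθ, h⟩ := Pool.Agent.K9h27.TN.thin_times
  refine ⟨c, C, θ0, hc, hC, hθ0, hCθ, fun R => ⟨(h R).1, fun δ hδ hlim μ hμ => ?_⟩⟩
  filter_upwards [(h R).2 δ hδ hlim μ hμ] with p hp
  refine ⟨hp.1, fun θ hθ s t hst => ?_⟩
  obtain ⟨h1, h2⟩ := hp.2.2 θ hθ
  have e1 : {u | u ∈ Set.Icc s t ∧ Thin θ p (p.1 u)} =
      Set.Icc s t ∩ Pool.Agent.K9h27.TN.Tn θ p := rfl
  have e2 : {z | z ∈ p.1 '' Set.Icc s t ∧ Thin θ p z} =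
      p.1 '' (Set.Icc s t ∩ Pool.Agent.K9h27.TN.Tn θ p) := by
    ext z
    constructor
    · rintro ⟨⟨u, hu, rfl⟩, hz⟩
      exact ⟨u, ⟨hu, hz⟩, rfl⟩
    · rintro ⟨u, ⟨hu, hz⟩, rfl⟩
      exact ⟨⟨u, hu, rfl⟩, hz⟩
  have h3 : dimH (Set.Icc s t ∩ Pool.Agent.K9h27.TN.Tn θ p) ≤
      ENNReal.ofReal (1 - c / θ ^ (4/3 : ℝ)) :=
    (dimH_mono Set.inter_subset_right).trans h1
  have h4 := h2 s t hst
  have e3 : (7 / 4 : ENNReal) = ENNReal.ofReal (7 / 4) := by
    rw [ENNReal.ofReal_div_of_pos (by norm_num)]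
    norm_num
  rw [e1, e2, hp.2.1, e3, ENNReal.ofReal_mul (by norm_num), ENNReal.ofReal_mul (by norm_num)]
  exact ⟨⟨h4, h3⟩, mul_le_mul_right h4 _, mul_le_mul_right h3 _⟩

end Pool.Agent.Results.MP_b3e76a_pr.ThinPoints
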